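import Pool.Agent.Helper54.SRD.Basic

set_option autoImplicit false
set_option maxSynthPendingDepth 3

open Set Filter MeasureTheory
open scoped Manifold ContDiff Topology

noncomputable section

namespace Pool.Agent.Helper39.SRD

open Pool.Agent.Helper54.SRD

theorem nm_smul' {E : Type*} [NormedAddCommGroup E] [NormedSpace ℝ E] (B : Bil E) (r : ℝ) (u : E) :
    nm B (r • u) = |r| * nm B u := by
  unfold nm
  have h : B (r • u) (r • u) = r ^ 2 * B u u := by
    simp only [map_smul, ContinuousLinearMap.smul_apply, smul_eq_mul]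
    ring
  rw [h, Real.sqrt_mul (sq_nonneg r), Real.sqrt_sq_eq_abs]

theorem continuous_nm {E : Type*} [NormedAddCommGroup E] [NormedSpace ℝ E] (B : Bil E) :
    Continuous (nm B) := by
  unfold nm
  exact ((B.continuous).clm_apply continuous_id).sqrt

/-- the chart expression of a curve of bounded speed -/
theorem der (E : Type*) [NormedAddCommGroup E] [NormedSpace ℝ E] [FiniteDimensional ℝ E]
    (M : Type*) [TopologicalSpace M] [ChartedSpace E M] [IsManifold 𝓘(ℝ, E) ∞ M]
    (hCHG : S_CHG E M) (hINT : S_INT E M) (hNMC : S_NMC E) : S_DER E M := by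
  intro G c γ a b x hc hab hγ
  have hcont : ∀ t ∈ Icc a b, ContinuousAt (fun t => (ch x (γ t) : E)) t := by
    intro t ht
    obtain ⟨h1, h2⟩ := hγ t ht
    exact ContinuousAt.comp (f := γ) (g := (ch x : M → E)) (continuousAt_ch h2) h1.1
  constructor
  · have hK : IsCompact ((fun t => (ch x (γ t) : E)) '' Icc a b) := by
      apply isCompact_Icc.image_of_continuousOn
      intro t ht
      exact (hcont t ht).continuousWithinAt
    have hsub : (fun t => (ch x (γ t) : E)) '' Icc a b ⊆ tgt E x := by
      rintro _ ⟨t, ht, rfl⟩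
      exact ch_mem (hγ t ht).2
    obtain ⟨m, hm, C, -, hmC⟩ := (hNMC (tgt E x) (G.G x) (isOpen_tgt x)
      (G.smooth x).continuousOn (fun z hz => ⟨G.symm x z hz, G.pos x z hz⟩)).2 _ hsub hK
    refine ⟨⟨c / m, by positivity⟩, ?_⟩
    have key : ∀ s ∈ Icc a b, ∀ t ∈ Icc a b, s ≤ t →
        ‖(ch x (γ t) : E) - ch x (γ s)‖ ≤ c / m * (t - s) := by
      intro s hs t ht hst
      have h1 := hINT G c γ s t x (fun u => ‖u‖) (1 / m) hc (by positivity) hst
        (fun r hr => hγ r ⟨hs.1.trans hr.1, hr.2.trans ht.2⟩) norm_zero norm_add_le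
        (by
          intro r hr u
          have h2 := (hmC _ ⟨r, ⟨hs.1.trans hr.1, hr.2.trans ht.2⟩, rfl⟩ u).1
          rw [one_div, ← div_eq_inv_mul, le_div_iff₀ hm]
          linarith)
      calc _ ≤ 1 / m * c * (t - s) := h1
        _ = c / m * (t - s) := by ring
    apply LipschitzOnWith.of_dist_le_mul
    intro s hs t ht
    rw [dist_eq_norm, Real.dist_eq]
    change _ ≤ c / m * |s - t|
    rcases le_total s t with hst | hst
    · rw [norm_sub_rev, abs_sub_comm, abs_of_nonneg (by linarith)]
      exact key s hs t ht hst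
    · rw [abs_of_nonneg (by linarith)]
      exact key t ht s hs hst
  · intro t ht
    have ht' : t ∈ Icc a b := ⟨ht.1.le, ht.2.le⟩
    obtain ⟨h1, h2⟩ := hγ t ht'
    by_cases hd : DifferentiableAt ℝ (fun t => (ch x (γ t) : E)) t
    · have h3 := (hCHG G c γ t x hc h1.1 h2).1 h1
      have h4 := hasDerivAt_iff_tendsto_slope.1 hd.hasDerivAt
      have h5 := ((continuous_nm (G.G x (ch x (γ t)))).tendsto _).comp h4
      apply le_of_forall_pos_le_add
      intro δ hδ
      refine le_of_tendsto h5 ?_
      have h6 := h3 δ hδ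
      have h7 : Tendsto (fun q : ℝ => (t, q)) (𝓝 t) (𝓝 (t, t)) :=
        (Continuous.prodMk_right t).tendsto t
      have h8 := (h7.eventually h6).filter_mono (nhdsWithin_le_nhds (s := {t}ᶜ))
      filter_upwards [h8, self_mem_nhdsWithin] with q hq hqt
      have hqt' : q - t ≠ 0 := sub_ne_zero.2 hqt
      simp only [Function.comp_apply, slope_def_module]
      rw [nm_smul', abs_inv, inv_mul_le_iff₀ (abs_pos.2 hqt')]
      linarith
    · rw [deriv_zero_of_not_differentiableAt hd]
      unfold nm
      simpa using hc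

end Pool.Agent.Helper39.SRD
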