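import Pool.Agent.Helper54.SRD.Basic

set_option autoImplicit false
set_option maxSynthPendingDepth 3

open Set Filter MeasureTheory
open scoped Manifold ContDiff Topology

noncomputable section

namespace Pool.Agent.Helper39.SRD

open Pool.Agent.Helper54.SRD

variable {E : Type*} [NormedAddCommGroup E] [NormedSpace ℝ E]

theorem nm_le_of_sq {A B : Bil E} {u : E} {c : ℝ} (hc : 0 ≤ c) (h : A u u ≤ c ^ 2 * B u u) :
    nm A u ≤ c * nm B u := by
  unfold nm
  calc Real.sqrt (A u u) ≤ Real.sqrt (c ^ 2 * B u u) := Real.sqrt_le_sqrt h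
    _ = c * Real.sqrt (B u u) := by
      rw [Real.sqrt_mul (sq_nonneg c), Real.sqrt_sq hc]

theorem quad_nonneg {B : Bil E} (hB : IsPD B) (u : E) : 0 ≤ B u u := by
  by_cases hu : u = 0
  · rw [hu]; simp
  · exact (hB.2 u hu).le

theorem close {A B : Bil E} {u : E} {m κ δ : ℝ} (hB : IsPD B) (hm : 0 < m)
    (hmu : m * ‖u‖ ≤ nm B u) (hδ : 0 < δ) (hκ : κ = δ / (1 + δ)) (hAB : ‖A - B‖ ≤ κ * m ^ 2) :
    nm A u ≤ (1 + δ) * nm B u ∧ nm B u ≤ (1 + δ) * nm A u := by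
  have h0 := quad_nonneg hB u
  have hκ0 : 0 ≤ κ := by rw [hκ]; positivity
  have h1 : |A u u - B u u| ≤ κ * B u u := by
    have h2 : A u u - B u u = (A - B) u u := by simp
    rw [h2, ← Real.norm_eq_abs]
    have h3 : (m * ‖u‖) ^ 2 ≤ B u u := by
      have h4 : (nm B u) ^ 2 = B u u := Real.sq_sqrt h0
      rw [← h4]
      exact pow_le_pow_left₀ (by positivity) hmu 2
    calc ‖(A - B) u u‖ ≤ ‖(A - B) u‖ * ‖u‖ := ContinuousLinearMap.le_opNorm _ _
      _ ≤ (‖A - B‖ * ‖u‖) * ‖u‖ := by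
        gcongr
        exact ContinuousLinearMap.le_opNorm _ _
      _ ≤ ((κ * m ^ 2) * ‖u‖) * ‖u‖ := by gcongr
      _ = κ * (m * ‖u‖) ^ 2 := by ring
      _ ≤ κ * B u u := by gcongr
  have h5 := abs_le.1 h1
  have hκ1 : κ ≤ δ := by
    rw [hκ, div_le_iff₀ (by linarith)]
    nlinarith
  have hκ2 : (1 + δ) * (1 - κ) = 1 := by
    rw [hκ]
    field_simp
    ring
  constructor
  · apply nm_le_of_sq (by linarith)
    have h6 : A u u ≤ (1 + κ) * B u u := by linarith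
    refine h6.trans ?_
    apply mul_le_mul_of_nonneg_right _ h0
    nlinarith
  · apply nm_le_of_sq (by linarith)
    have h6 : (1 - κ) * B u u ≤ A u u := by linarith
    have h7 : (1 + δ) ^ 2 * ((1 - κ) * B u u) ≤ (1 + δ) ^ 2 * A u u := by gcongr
    have h8 : (1 + δ) ^ 2 * ((1 - κ) * B u u) = (1 + δ) * (((1 + δ) * (1 - κ)) * B u u) := by ring
    rw [h8, hκ2] at h7
    nlinarith

/-- local and compact comparison of the norms -/
theorem nmc (E : Type*) [NormedAddCommGroup E] [NormedSpace ℝ E] [FiniteDimensional ℝ E]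
    (h : S_NM E) : S_NMC E := by
  intro U G hU hG hPD
  have hfirst : ∀ z₀ ∈ U, ∀ δ > 0, ∀ᶠ z in 𝓝 z₀, ∀ u,
      nm (G z) u ≤ (1 + δ) * nm (G z₀) u ∧ nm (G z₀) u ≤ (1 + δ) * nm (G z) u := by
    intro z₀ hz₀ δ hδ
    obtain ⟨-, -, -, ⟨m, hm, hmu⟩, -⟩ := h (G z₀) (hPD z₀ hz₀)
    have hc : ContinuousAt G z₀ := hG.continuousAt (hU.mem_nhds hz₀)
    have hη : 0 < δ / (1 + δ) * m ^ 2 := by positivity
    have h1 := Metric.continuousAt_iff'.1 hc (δ / (1 + δ) * m ^ 2) hη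
    filter_upwards [h1] with z hz u
    rw [dist_eq_norm] at hz
    exact close (hPD z₀ hz₀) hm (hmu u) hδ rfl hz.le
  refine ⟨hfirst, ?_⟩
  intro K hKU hK
  refine hK.induction_on (p := fun s => ∃ m > 0, ∃ C > 0, ∀ z ∈ s, ∀ u, m * ‖u‖ ≤ nm (G z) u ∧
      nm (G z) u ≤ C * ‖u‖) ?_ ?_ ?_ ?_
  · exact ⟨1, one_pos, 1, one_pos, fun z hz => absurd hz (Set.notMem_empty z)⟩
  · rintro s t hst ⟨m, hm, C, hC, ht⟩
    exact ⟨m, hm, C, hC, fun z hz => ht z (hst hz)⟩
  · rintro s t ⟨m, hm, C, hC, hs⟩ ⟨m', hm', C', hC', ht⟩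
    refine ⟨min m m', lt_min hm hm', max C C', lt_max_of_lt_left hC, ?_⟩
    rintro z (hz | hz) u
    · refine ⟨le_trans ?_ (hs z hz u).1, (hs z hz u).2.trans ?_⟩
      · gcongr
        exact min_le_left _ _
      · gcongr
        exact le_max_left _ _
    · refine ⟨le_trans ?_ (ht z hz u).1, (ht z hz u).2.trans ?_⟩
      · gcongr
        exact min_le_right _ _
      · gcongr
        exact le_max_right _ _
  · intro z₀ hz₀
    obtain ⟨-, -, -, ⟨m, hm, hmu⟩, ⟨C, hC, hCu⟩⟩ := h (G z₀) (hPD z₀ (hKU hz₀))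
    have h1 := hfirst z₀ (hKU hz₀) 1 one_pos
    refine ⟨_, mem_nhdsWithin_of_mem_nhds h1, m / 2, by positivity, 2 * C, by positivity, ?_⟩
    intro z hz u
    obtain ⟨h2, h3⟩ := hz u
    constructor
    · have := hmu u
      linarith
    · have := hCu u
      linarith

end Pool.Agent.Helper39.SRD
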